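import Pool.Agent.Helper23.MV.StC

/-!
# MV, module MJA: dissection of the unit interval into major and minor arcs.
-/

set_option autoImplicit false

namespace Pool.Agent.Helper22.MV

open Finset MeasureTheory
open Pool.Agent.Helper23.MV

private theorem sep_MJA {a q a' q' : ℕ} {P B : ℝ} (hq : 1 ≤ q) (hq' : 1 ≤ q')
    (hqP : (q : ℝ) ≤ P) (hqP' : (q' : ℝ) ≤ P) (hc : Nat.Coprime a q) (hc' : Nat.Coprime a' q')
    (hB0 : 0 < B) (hB : 2 * B * P ^ 2 < 1) (hne : ¬ (q = q' ∧ a = a')) :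
    2 * B < |(a : ℝ) / q - a' / q'| := by
  have hq0 : (0 : ℝ) < q := by exact_mod_cast hq
  have hq0' : (0 : ℝ) < q' := by exact_mod_cast hq'
  have hz : (a : ℤ) * q' - a' * q ≠ 0 := by
    intro h
    have h1 : a * q' = a' * q := by
      have : (a : ℤ) * q' = a' * q := by linarith
      exact_mod_cast this
    have d1 : q ∣ q' := by
      have : q ∣ a * q' := h1 ▸ Dvd.intro_left a' rfl
      exact Nat.Coprime.dvd_of_dvd_mul_left hc.symm this
    have d2 : q' ∣ q := by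
      have : q' ∣ a' * q := h1 ▸ Dvd.intro_left a rfl
      exact Nat.Coprime.dvd_of_dvd_mul_left hc'.symm this
    have e : q = q' := Nat.dvd_antisymm d1 d2
    subst e
    exact hne ⟨rfl, Nat.eq_of_mul_eq_mul_right hq h1⟩
  have h1 : (1 : ℝ) ≤ |(a : ℝ) * q' - a' * q| := by
    have := Int.one_le_abs hz
    exact_mod_cast this
  have e : (a : ℝ) / q - a' / q' = ((a : ℝ) * q' - a' * q) / (q * q') := by field_simp
  rw [e, abs_div, abs_of_pos (mul_pos hq0 hq0'), lt_div_iff₀ (mul_pos hq0 hq0')]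
  have h2 : (q : ℝ) * q' ≤ P ^ 2 := by
    rw [pow_two]
    exact mul_le_mul hqP hqP' hq0'.le (by linarith)
  nlinarith [mul_le_mul_of_nonneg_left h2 (by linarith : (0 : ℝ) ≤ 2 * B)]

/-- the arc around `a / q`, the pair is `⟨q, a⟩` -/
private noncomputable def arc_MJA (B : ℝ) (i : Σ _ : ℕ, ℕ) : Set ℝ :=
  Set.Icc ((i.2 : ℝ) / i.1 - B) ((i.2 : ℝ) / i.1 + B)

private noncomputable def idx_MJA (P : ℝ) : Finset (Σ _ : ℕ, ℕ) :=
  (Icc 1 ⌊P⌋₊).sigma (fun q => (range q).filter (fun a => Nat.Coprime a q))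

private theorem mem_idx_MJA {P : ℝ} (hP : 1 ≤ P) (i : Σ _ : ℕ, ℕ) :
    i ∈ idx_MJA P ↔ 1 ≤ i.1 ∧ (i.1 : ℝ) ≤ P ∧ i.2 < i.1 ∧ Nat.Coprime i.2 i.1 := by
  unfold idx_MJA
  simp only [mem_sigma, mem_Icc, mem_filter, mem_range]
  rw [Nat.le_floor_iff (by linarith)]
  tauto

private theorem frac_MJA {P B : ℝ} (hP : 1 ≤ P) (hB0 : 0 < B) (hB : 2 * B * P ^ 2 < 1)
    {i : Σ _ : ℕ, ℕ} (hi : i ∈ idx_MJA P) :
    (0 : ℝ) ≤ (i.2 : ℝ) / i.1 ∧ (i.2 : ℝ) / i.1 < 1 - 2 * B := by
  obtain ⟨h1, h2, h3, h4⟩ := (mem_idx_MJA hP i).1 hi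
  have hq0 : (0 : ℝ) < i.1 := by exact_mod_cast h1
  refine ⟨by positivity, ?_⟩
  have h5 : (i.2 : ℝ) + 1 ≤ i.1 := by exact_mod_cast h3
  have h6 : 2 * B * i.1 < 1 := by
    have : (i.1 : ℝ) ≤ P ^ 2 := by nlinarith
    nlinarith [mul_le_mul_of_nonneg_left this (by linarith : (0 : ℝ) ≤ 2 * B)]
  rw [div_lt_iff₀ hq0]
  nlinarith

private theorem mn_MJA {P B : ℝ} (hP : 1 ≤ P) (hB0 : 0 < B) (hB : 2 * B * P ^ 2 < 1) :
    mn P B = Set.Ico (-B) (1 - B) \ ⋃ i ∈ idx_MJA P, arc_MJA B i := by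
  ext α
  simp only [mn, Set.mem_setOf_eq, Set.mem_Icc, Set.mem_diff, Set.mem_Ico, Set.mem_iUnion,
    exists_prop, not_exists, not_and]
  constructor
  · rintro ⟨⟨h0, h1⟩, h⟩
    have a0 := h 1 le_rfl (by simpa using hP) 0
    have a1 := h 1 le_rfl (by simpa using hP) 1
    simp only [Int.cast_zero, Nat.cast_one, div_one, sub_zero, Int.cast_one] at a0 a1
    rw [abs_of_nonneg h0] at a0
    rw [abs_of_nonpos (by linarith)] at a1
    refine ⟨⟨by linarith, by linarith⟩, ?_⟩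
    intro i hi hα
    obtain ⟨g1, g2, g3, g4⟩ := (mem_idx_MJA hP i).1 hi
    have := h i.1 g1 g2 i.2
    unfold arc_MJA at hα
    have h2 : |α - ((i.2 : ℤ) : ℝ) / i.1| ≤ B := by
      rw [abs_le, Int.cast_natCast]
      exact ⟨by linarith [hα.1], by linarith [hα.2]⟩
    linarith
  · rintro ⟨⟨h0, h1⟩, h⟩
    have b0 : B < α := by
      have := h ⟨1, 0⟩ ((mem_idx_MJA hP _).2 ⟨le_rfl, by simpa using hP, by simp, by simp⟩)
      unfold arc_MJA at this
      simp only [Nat.cast_zero, Nat.cast_one, div_one, zero_sub, zero_add, Set.mem_Icc,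
        not_and, not_le] at this
      exact this h0
    refine ⟨⟨by linarith, by linarith⟩, ?_⟩
    intro q hq hqP a
    have hq0 : (0 : ℝ) < q := by exact_mod_cast hq
    rcases lt_or_ge a 0 with ha | ha
    · have : (a : ℝ) / q ≤ 0 := div_nonpos_of_nonpos_of_nonneg (by exact_mod_cast ha.le) hq0.le
      rw [abs_of_pos (by linarith)]
      linarith
    · rcases le_or_gt (q : ℤ) a with ha' | ha'
      · have : 1 ≤ (a : ℝ) / q := by
          rw [le_div_iff₀ hq0, one_mul]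
          exact_mod_cast ha'
        rw [abs_of_neg (by linarith)]
        linarith
      · obtain ⟨b, rfl⟩ := Int.eq_ofNat_of_zero_le ha
        have hb : b < q := by exact_mod_cast ha'
        have hg : 0 < Nat.gcd b q := Nat.gcd_pos_of_pos_right _ hq
        have hg0 : ((Nat.gcd b q : ℕ) : ℝ) ≠ 0 := by exact_mod_cast hg.ne'
        have e1 : b / Nat.gcd b q * Nat.gcd b q = b := Nat.div_mul_cancel (Nat.gcd_dvd_left _ _)
        have e2 : q / Nat.gcd b q * Nat.gcd b q = q := Nat.div_mul_cancel (Nat.gcd_dvd_right _ _)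
        have hmem : (⟨q / Nat.gcd b q, b / Nat.gcd b q⟩ : Σ _ : ℕ, ℕ) ∈ idx_MJA P := by
          rw [mem_idx_MJA hP]
          refine ⟨?_, ?_, ?_, Nat.coprime_div_gcd_div_gcd hg⟩
          · exact Nat.div_pos (Nat.le_of_dvd hq (Nat.gcd_dvd_right _ _)) hg
          · refine le_trans ?_ hqP
            exact_mod_cast Nat.div_le_self _ _
          · show b / Nat.gcd b q < q / Nat.gcd b q
            by_contra hcon
            rw [not_lt] at hcon
            have := Nat.mul_le_mul_right (Nat.gcd b q) hcon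
            rw [e1, e2] at this
            omega
        have h3 := h _ hmem
        unfold arc_MJA at h3
        have e3 : (((b / Nat.gcd b q : ℕ) : ℝ)) / ((q / Nat.gcd b q : ℕ) : ℝ) = (b : ℝ) / q := by
          rw [Nat.cast_div (Nat.gcd_dvd_left _ _) hg0, Nat.cast_div (Nat.gcd_dvd_right _ _) hg0]
          field_simp
        simp only [e3, Set.mem_Icc, not_and, not_le] at h3
        rw [Int.cast_natCast]
        rcases lt_or_ge α ((b : ℝ) / q - B) with h4 | h4
        · rw [abs_of_neg (by linarith)]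
          linarith
        · have := h3 h4
          rw [abs_of_pos (by linarith)]
          linarith

theorem hMja : StMja := by
  intro G P B hG hper hP hB0 hB
  have e1 : ∫ α in (0 : ℝ)..1, G α = ∫ α in (-B)..(1 - B), G α := by
    have := Function.Periodic.intervalIntegral_add_eq (f := G) (T := 1) hper 0 (-B)
    rw [zero_add] at this
    rw [this, neg_add_eq_sub]
  have hint : IntegrableOn G (Set.Ico (-B) (1 - B)) volume :=
    (hG.integrableOn_Icc (a := -B) (b := 1 - B)).mono_set Set.Ico_subset_Icc_self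
  have hmeas : ∀ i ∈ idx_MJA P, MeasurableSet (arc_MJA B i) := fun i _ => measurableSet_Icc
  have hmU : MeasurableSet (⋃ i ∈ idx_MJA P, arc_MJA B i) :=
    Finset.measurableSet_biUnion _ hmeas
  have hsub : (⋃ i ∈ idx_MJA P, arc_MJA B i) ⊆ Set.Ico (-B) (1 - B) := by
    intro α hα
    simp only [Set.mem_iUnion, exists_prop] at hα
    obtain ⟨i, hi, hα⟩ := hα
    obtain ⟨h1, h2⟩ := frac_MJA hP hB0 hB hi
    exact ⟨by linarith [hα.1], by linarith [hα.2]⟩
  have e2 : ∫ α in mn P B, G α = (∫ α in Set.Ico (-B) (1 - B), G α) -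
      ∫ α in ⋃ i ∈ idx_MJA P, arc_MJA B i, G α := by
    rw [mn_MJA hP hB0 hB]
    exact integral_diff hmU hint hsub
  have hdis : Set.Pairwise (↑(idx_MJA P)) (Function.onFun Disjoint (arc_MJA B)) := by
    intro i hi j hj hij
    obtain ⟨g1, g2, g3, g4⟩ := (mem_idx_MJA hP i).1 hi
    obtain ⟨k1, k2, k3, k4⟩ := (mem_idx_MJA hP j).1 hj
    have hne : ¬ (i.1 = j.1 ∧ i.2 = j.2) := by
      rintro ⟨h1, h2⟩
      exact hij (by cases i; cases j; simp_all)
    have hs := sep_MJA g1 k1 g2 k2 g4 k4 hB0 hB hne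
    rw [Function.onFun, Set.disjoint_left]
    intro α h1 h2
    unfold arc_MJA at h1 h2
    have : |(i.2 : ℝ) / i.1 - j.2 / j.1| ≤ 2 * B := by
      rw [abs_le]
      exact ⟨by linarith [h1.1, h1.2, h2.1, h2.2], by linarith [h1.1, h1.2, h2.1, h2.2]⟩
    linarith
  have e3 : ∫ α in ⋃ i ∈ idx_MJA P, arc_MJA B i, G α =
      ∑ i ∈ idx_MJA P, ∫ α in arc_MJA B i, G α :=
    integral_biUnion_finset _ hmeas hdis (fun i _ => hG.integrableOn_Icc)
  have e4 : ∀ i ∈ idx_MJA P, ∫ α in arc_MJA B i, G α =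
      ∫ β in (-B)..B, G ((i.2 : ℝ) / i.1 + β) := by
    intro i _
    unfold arc_MJA
    rw [integral_Icc_eq_integral_Ioc, ← intervalIntegral.integral_of_le (by linarith),
      intervalIntegral.integral_comp_add_left (fun x => G x), ← sub_eq_add_neg]
  rw [e1, intervalIntegral.integral_of_le (by linarith), ← integral_Ico_eq_integral_Ioc]
  rw [e2, e3, Finset.sum_congr rfl e4]
  unfold idx_MJA
  rw [Finset.sum_sigma]
  ring

end Pool.Agent.Helper22.MV
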