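import Pool.Agent.Helper23.MV.StP

/-!
# Project MV, module WHB: the transform `wh` and sums with the weight `w`
-/

set_option autoImplicit false

namespace Pool.Agent.Helper22.MV

open Finset ArithmeticFunction MeasureTheory
open Pool.Agent.Helper23.MV
open Pool.Agent.Helper15.AB (IsW)

namespace WHB

private theorem zero_at_zero {φ : ℝ → ℝ} (hφ : Continuous φ) (h : ∀ t < 0, φ t = 0) : φ 0 = 0 := by
  have hc : IsClosed (φ ⁻¹' {0}) := isClosed_singleton.preimage hφ
  have hs : Set.Iio (0 : ℝ) ⊆ φ ⁻¹' {0} := fun t ht => h t ht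
  have := (hc.closure_subset_iff.2 hs)
  rw [closure_Iio] at this
  exact this (Set.mem_Iic.2 le_rfl)

private theorem zero_at_one {φ : ℝ → ℝ} (hφ : Continuous φ) (h : ∀ t, 1 < t → φ t = 0) :
    φ 1 = 0 := by
  have hc : IsClosed (φ ⁻¹' {0}) := isClosed_singleton.preimage hφ
  have hs : Set.Ioi (1 : ℝ) ⊆ φ ⁻¹' {0} := fun t ht => h t ht
  have := (hc.closure_subset_iff.2 hs)
  rw [closure_Ioi] at this
  exact this (Set.mem_Ici.2 le_rfl)

private theorem deriv_lt {φ : ℝ → ℝ} (h : ∀ t < 0, φ t = 0) : ∀ t < 0, deriv φ t = 0 := by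
  intro t ht
  have : φ =ᶠ[nhds t] fun _ => (0 : ℝ) := by
    filter_upwards [Iio_mem_nhds ht] with s hs using h s hs
  rw [this.deriv_eq]
  simp

private theorem deriv_gt {φ : ℝ → ℝ} (h : ∀ t, 1 < t → φ t = 0) : ∀ t, 1 < t → deriv φ t = 0 := by
  intro t ht
  have : φ =ᶠ[nhds t] fun _ => (0 : ℝ) := by
    filter_upwards [Ioi_mem_nhds ht] with s hs using h s hs
  rw [this.deriv_eq]
  simp

/-- the facts on the weight -/
private structure Facts (w : ℝ → ℝ) (B : ℝ) : Prop where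
  d0 : Differentiable ℝ w
  d1 : Differentiable ℝ (deriv w)
  c2 : Continuous (deriv (deriv w))
  z0 : ∀ t ≤ 0, w t = 0
  z1 : ∀ t, 1 ≤ t → w t = 0
  e0 : deriv w 0 = 0
  e1 : deriv w 1 = 0
  f0 : ∀ t, t ∉ Set.Icc (0 : ℝ) 1 → deriv w t = 0
  B1 : 1 ≤ B
  b0 : ∀ t, |w t| ≤ B
  b1 : ∀ t, |deriv w t| ≤ B
  b2 : ∀ t ∈ Set.Icc (0 : ℝ) 1, |deriv (deriv w) t| ≤ B

private theorem facts {w : ℝ → ℝ} (hw : IsW w) : ∃ B, Facts w B := by
  have h4 := hw.smooth
  have h3 : ContDiff ℝ 3 (deriv w) := by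
    have : ContDiff ℝ (3 + 1) w := h4.of_le (by norm_num)
    exact this.deriv' 
  have h2 : ContDiff ℝ 2 (deriv (deriv w)) := by
    have : ContDiff ℝ (2 + 1) (deriv w) := h3.of_le (by norm_num)
    exact this.deriv'
  have hd0 : Differentiable ℝ w := h4.differentiable (by norm_num)
  have hd1 : Differentiable ℝ (deriv w) := h3.differentiable (by norm_num)
  have hc2 : Continuous (deriv (deriv w)) := h2.continuous
  have n0 : ∀ t < 0, w t = 0 := fun t ht => hw.supp t (fun h => absurd h.1 (not_le.2 ht))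
  have n1 : ∀ t, 1 < t → w t = 0 := fun t ht => hw.supp t (fun h => absurd h.2 (not_le.2 ht))
  have m0 := deriv_lt n0
  have m1 := deriv_gt n1
  have w0 := zero_at_zero hd0.continuous n0
  have w1 := zero_at_one hd0.continuous n1
  have v0 := zero_at_zero hd1.continuous m0
  have v1 := zero_at_one hd1.continuous m1
  obtain ⟨B1, hB1⟩ := (isCompact_Icc (a := (0 : ℝ)) (b := 1)).exists_bound_of_continuousOn
    hd1.continuous.continuousOn
  obtain ⟨B2, hB2⟩ := (isCompact_Icc (a := (0 : ℝ)) (b := 1)).exists_bound_of_continuousOn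
    hc2.continuousOn
  have g1 : B1 ≤ max 1 (max B1 B2) := (le_max_left _ _).trans (le_max_right _ _)
  have g2 : B2 ≤ max 1 (max B1 B2) := (le_max_right _ _).trans (le_max_right _ _)
  have g0 : 1 ≤ max 1 (max B1 B2) := le_max_left _ _
  have f0 : ∀ t, t ∉ Set.Icc (0 : ℝ) 1 → deriv w t = 0 := by
    intro t ht
    rcases lt_or_ge t 0 with h | h
    · exact m0 t h
    · exact m1 t (not_le.1 fun h' => ht ⟨h, h'⟩)
  refine ⟨max 1 (max B1 B2), ⟨hd0, hd1, hc2, ?_, ?_, v0, v1, f0, g0, ?_, ?_, ?_⟩⟩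
  · intro t ht
    rcases eq_or_lt_of_le ht with rfl | h
    · exact w0
    · exact n0 t h
  · intro t ht
    rcases eq_or_lt_of_le ht with rfl | h
    · exact w1
    · exact n1 t h
  · intro t
    rw [abs_of_nonneg (hw.nonneg t)]
    exact (hw.le_one t).trans g0
  · intro t
    by_cases ht : t ∈ Set.Icc (0 : ℝ) 1
    · exact (hB1 t ht).trans g1
    · rw [f0 t ht, abs_zero]
      linarith
  · intro t ht
    exact (hB2 t ht).trans g2

private theorem parts {φ : ℝ → ℝ} (hd : Differentiable ℝ φ) (hc : Continuous (deriv φ))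
    (h0 : φ 0 = 0) (h1 : φ 1 = 0) (z : ℂ) :
    ∫ v in (0 : ℝ)..1, ((deriv φ v : ℝ) : ℂ) * Complex.exp (z * v) =
      -z * ∫ v in (0 : ℝ)..1, ((φ v : ℝ) : ℂ) * Complex.exp (z * v) := by
  have hu : ∀ x ∈ Set.uIcc (0 : ℝ) 1, HasDerivAt (fun v : ℝ => Complex.exp (z * v))
      (z * Complex.exp (z * x)) x := by
    intro x _
    have h1 : HasDerivAt (fun v : ℝ => z * (v : ℂ)) z x := by
      simpa using (Complex.ofRealCLM.hasDerivAt (x := x)).const_mul z
    have h2 := h1.cexp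
    rw [mul_comm] at h2
    exact h2
  have hv : ∀ x ∈ Set.uIcc (0 : ℝ) 1, HasDerivAt (fun v : ℝ => ((φ v : ℝ) : ℂ))
      ((deriv φ x : ℝ) : ℂ) x := fun x _ => (hd x).hasDerivAt.ofReal_comp
  have hcu : Continuous fun v : ℝ => z * Complex.exp (z * v) := by fun_prop
  have hcv : Continuous fun v : ℝ => ((deriv φ v : ℝ) : ℂ) := Complex.continuous_ofReal.comp hc
  have h := intervalIntegral.integral_mul_deriv_eq_deriv_mul hu hv
    (hcu.intervalIntegrable _ _) (hcv.intervalIntegrable _ _)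
  simp only [h0, h1, Complex.ofReal_zero, mul_zero, sub_zero, zero_sub] at h
  have e1 : ∫ v in (0 : ℝ)..1, ((deriv φ v : ℝ) : ℂ) * Complex.exp (z * v) =
      ∫ v in (0 : ℝ)..1, Complex.exp (z * v) * ((deriv φ v : ℝ) : ℂ) :=
    intervalIntegral.integral_congr fun v _ => mul_comm _ _
  rw [e1, h, ← intervalIntegral.integral_const_mul, ← intervalIntegral.integral_neg]
  refine intervalIntegral.integral_congr fun v _ => ?_
  show -(z * Complex.exp (z * v) * ((φ v : ℝ) : ℂ)) = -z * (((φ v : ℝ) : ℂ) * Complex.exp (z * v))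
  ring

private theorem exp_le {z : ℂ} (hz : z.re ≤ 1) {v : ℝ} (h0 : 0 ≤ v) (h1 : v ≤ 1) :
    ‖Complex.exp (z * v)‖ ≤ 3 := by
  rw [Complex.norm_exp]
  have e : (z * (v : ℂ)).re = z.re * v := by simp
  rw [e]
  have h : z.re * v ≤ 1 := by nlinarith
  exact (Real.exp_le_exp.2 h).trans (Real.exp_one_lt_d9.le.trans (by norm_num))

private theorem bound {φ : ℝ → ℝ} {B : ℝ} (hb : ∀ t ∈ Set.Icc (0 : ℝ) 1, |φ t| ≤ B)
    (hB : 0 ≤ B) {z : ℂ} (hz : z.re ≤ 1) :
    ‖∫ v in (0 : ℝ)..1, ((φ v : ℝ) : ℂ) * Complex.exp (z * v)‖ ≤ 3 * B := by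
  have h := intervalIntegral.norm_integral_le_of_norm_le_const (a := (0 : ℝ)) (b := 1)
    (f := fun v : ℝ => ((φ v : ℝ) : ℂ) * Complex.exp (z * v)) (C := 3 * B) (by
      intro v hv
      rw [Set.uIoc_of_le zero_le_one] at hv
      rw [norm_mul, Complex.norm_real, Real.norm_eq_abs, mul_comm]
      exact mul_le_mul (exp_le hz hv.1.le hv.2) (hb v ⟨hv.1.le, hv.2⟩) (abs_nonneg _) (by norm_num))
  simpa using h

end WHB

open WHB

private theorem part2_WHB {w : ℝ → ℝ} {B : ℝ} (hF : Facts w B) (z : ℂ) :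
    (∫ v in (0 : ℝ)..1, ((deriv w v : ℝ) : ℂ) * Complex.exp (z * v)) = -z * wh w z ∧
    (∫ v in (0 : ℝ)..1, ((deriv (deriv w) v : ℝ) : ℂ) * Complex.exp (z * v)) = z ^ 2 * wh w z := by
  have h1 := parts hF.d0 hF.d1.continuous (hF.z0 0 le_rfl) (hF.z1 1 le_rfl) z
  have h2 := parts hF.d1 hF.c2 hF.e0 hF.e1 z
  refine ⟨h1, ?_⟩
  rw [h2, h1]
  unfold wh
  ring

private theorem sum_WHB {w : ℝ → ℝ} {B : ℝ} (hF : Facts w B) (X : ℕ) (s : ℂ) (hX : 1 ≤ X)
    (hs0 : 0 ≤ s.re) :
    ‖∑ m ∈ Icc 1 (3 * X), ((w (Real.log (m / X)) : ℝ) : ℂ) * (m : ℂ) ^ (-1 - s) -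
      (X : ℂ) ^ (-s) * wh w (-s)‖ ≤ 4 * B * (1 + ‖s‖) / X := by
  have hX0 : (0 : ℝ) < X := by exact_mod_cast hX
  have hXC : (X : ℂ) ≠ 0 := by exact_mod_cast hX0.ne'
  have hB0 : 0 ≤ B := by linarith [hF.B1]
  -- the function in logarithmic scale
  set h : ℝ → ℂ := fun v => ((w v : ℝ) : ℂ) * Complex.exp (-(1 + s) * v) with hh
  set g : ℝ → ℂ := fun u => (X : ℂ) ^ (-1 - s) * h (Real.log (u / X)) with hg
  have hhd : ∀ v : ℝ, HasDerivAt h ((((deriv w v : ℝ) : ℂ) - (1 + s) * ((w v : ℝ) : ℂ)) *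
      Complex.exp (-(1 + s) * v)) v := by
    intro v
    have h1 : HasDerivAt (fun v : ℝ => -(1 + s) * (v : ℂ)) (-(1 + s)) v := by
      simpa using (Complex.ofRealCLM.hasDerivAt (x := v)).const_mul (-(1 + s))
    have h2 := (hF.d0 v).hasDerivAt.ofReal_comp.mul h1.cexp
    refine HasDerivAt.congr_deriv (f := h) h2 ?_
    ring
  have hlog : ∀ u : ℝ, 0 < u → HasDerivAt (fun u : ℝ => Real.log (u / X)) (1 / u) u := by
    intro u hu
    have h1 : HasDerivAt (fun u : ℝ => u / X) (1 / X) u := (hasDerivAt_id u).div_const _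
    have h2 := h1.log (by positivity)
    convert h2 using 1
    field_simp
  have hgd : ∀ u : ℝ, 0 < u → HasDerivAt g ((X : ℂ) ^ (-1 - s) * ((((1 / u : ℝ)) : ℂ) *
      ((((deriv w (Real.log (u / X)) : ℝ) : ℂ) - (1 + s) * ((w (Real.log (u / X)) : ℝ) : ℂ)) *
      Complex.exp (-(1 + s) * (Real.log (u / X) : ℝ))))) u := by
    intro u hu
    have h1 := (hhd (Real.log (u / X))).scomp u (hlog u hu)
    have h2 := h1.const_mul ((X : ℂ) ^ (-1 - s))
    refine HasDerivAt.congr_deriv (f := g) h2 ?_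
    rw [Complex.real_smul]
  have hXn : ‖(X : ℂ) ^ (-1 - s)‖ ≤ 1 / X := by
    rw [Complex.norm_natCast_cpow_of_pos (by omega)]
    have e : (-1 - s).re = -1 - s.re := by simp
    rw [e]
    calc (X : ℝ) ^ (-1 - s.re) ≤ (X : ℝ) ^ (-1 : ℝ) :=
          Real.rpow_le_rpow_of_exponent_le (by exact_mod_cast hX) (by linarith)
      _ = 1 / X := by rw [Real.rpow_neg_one, one_div]
  have hdb : ∀ u ∈ Set.Icc (X : ℝ) (3 * X), ‖((X : ℂ) ^ (-1 - s) * ((((1 / u : ℝ)) : ℂ) *
      ((((deriv w (Real.log (u / X)) : ℝ) : ℂ) - (1 + s) * ((w (Real.log (u / X)) : ℝ) : ℂ)) *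
      Complex.exp (-(1 + s) * (Real.log (u / X) : ℝ)))))‖ ≤ 2 * B * (1 + ‖s‖) / X ^ 2 := by
    intro u hu
    have hu0 : 0 < u := lt_of_lt_of_le hX0 hu.1
    have hl0 : 0 ≤ Real.log (u / X) := Real.log_nonneg (by rw [le_div_iff₀ hX0]; linarith [hu.1])
    have a1 : ‖(((1 / u : ℝ)) : ℂ)‖ ≤ 1 / X := by
      rw [Complex.norm_real, Real.norm_eq_abs, abs_of_pos (by positivity)]
      exact one_div_le_one_div_of_le hX0 hu.1
    have a2 : ‖Complex.exp (-(1 + s) * (Real.log (u / X) : ℝ))‖ ≤ 1 := by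
      rw [Complex.norm_exp, Real.exp_le_one_iff]
      have e : (-(1 + s) * ((Real.log (u / X) : ℝ) : ℂ)).re = -(1 + s.re) * Real.log (u / X) := by
        rw [Complex.re_mul_ofReal]; simp
      rw [e]
      nlinarith
    have a3 : ‖((deriv w (Real.log (u / X)) : ℝ) : ℂ) -
        (1 + s) * ((w (Real.log (u / X)) : ℝ) : ℂ)‖ ≤ 2 * B * (1 + ‖s‖) := by
      have b1 := hF.b1 (Real.log (u / X))
      have b0 := hF.b0 (Real.log (u / X))
      calc _ ≤ ‖((deriv w (Real.log (u / X)) : ℝ) : ℂ)‖ +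
            ‖(1 + s) * ((w (Real.log (u / X)) : ℝ) : ℂ)‖ := norm_sub_le _ _
        _ ≤ B + (1 + ‖s‖) * B := by
            rw [norm_mul, Complex.norm_real, Complex.norm_real, Real.norm_eq_abs,
              Real.norm_eq_abs]
            refine add_le_add b1 (mul_le_mul ?_ b0 (abs_nonneg _) (by positivity))
            exact (norm_add_le _ _).trans (by simp)
        _ ≤ 2 * B * (1 + ‖s‖) := by nlinarith [norm_nonneg s, mul_nonneg hB0 (norm_nonneg s)]
    rw [norm_mul, norm_mul, norm_mul]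
    calc _ ≤ 1 / X * (1 / X * (2 * B * (1 + ‖s‖) * 1)) := by gcongr
      _ = _ := by field_simp
  have hgc : ∀ u ∈ Set.Icc (X : ℝ) (3 * X), ContinuousAt g u := fun u hu =>
    (hgd u (lt_of_lt_of_le hX0 hu.1)).continuousAt
  have hgcon : ContinuousOn g (Set.Icc (X : ℝ) (3 * X)) := fun u hu =>
    (hgc u hu).continuousWithinAt
  -- value of the summand
  have hval : ∀ m : ℕ, 1 ≤ m → ((w (Real.log (m / X)) : ℝ) : ℂ) * (m : ℂ) ^ (-1 - s) = g m := by
    intro m hm
    have hm0 : (0 : ℝ) < m := by exact_mod_cast hm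
    have hmC : (m : ℂ) ≠ 0 := by exact_mod_cast hm0.ne'
    have e1 : (m : ℂ) ^ (-1 - s) = (X : ℂ) ^ (-1 - s) *
        Complex.exp (-(1 + s) * ((Real.log (m / X) : ℝ) : ℂ)) := by
      rw [Complex.cpow_def_of_ne_zero hmC, Complex.cpow_def_of_ne_zero hXC, ← Complex.exp_add,
        ← Complex.natCast_log, ← Complex.natCast_log, Real.log_div hm0.ne' hX0.ne']
      congr 1
      push_cast
      ring
    rw [e1, hg, hh]
    ring
  have hsum : ∑ m ∈ Icc 1 (3 * X), ((w (Real.log (m / X)) : ℝ) : ℂ) * (m : ℂ) ^ (-1 - s) =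
      ∑ k ∈ Finset.Ico X (3 * X), g ((k + 1 : ℕ) : ℝ) := by
    rw [Finset.sum_Ico_add' (fun k : ℕ => g (k : ℝ)) X (3 * X) 1]
    have hsub : Finset.Ico (X + 1) (3 * X + 1) ⊆ Icc 1 (3 * X) := by
      intro k hk
      rw [Finset.mem_Ico] at hk
      rw [Finset.mem_Icc]
      omega
    rw [← Finset.sum_subset hsub (f := fun m : ℕ => ((w (Real.log (m / X)) : ℝ) : ℂ) *
      (m : ℂ) ^ (-1 - s))]
    · refine Finset.sum_congr rfl fun k hk => ?_
      rw [Finset.mem_Ico] at hk
      exact hval k (by omega)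
    · intro k hk hk'
      rw [Finset.mem_Icc] at hk
      rw [Finset.mem_Ico] at hk'
      have hkX : k ≤ X := by omega
      have hk0 : (0 : ℝ) < k := by exact_mod_cast hk.1
      have : Real.log (k / X) ≤ 0 := Real.log_nonpos (by positivity) (by
        rw [div_le_one hX0]; exact_mod_cast hkX)
      rw [hF.z0 _ this]
      simp
  -- the integral
  have hint : ∫ u in (X : ℝ)..(3 * X), g u = (X : ℂ) ^ (-s) * wh w (-s) := by
    have hl3 : (1 : ℝ) < Real.log 3 := by
      rw [Real.lt_log_iff_exp_lt (by norm_num)]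
      exact Real.exp_one_lt_d9.trans (by norm_num)
    have h1 := intervalIntegral.integral_comp_smul_deriv'' (a := 0) (b := Real.log 3)
      (f := fun v : ℝ => X * Real.exp v) (f' := fun v : ℝ => X * Real.exp v) (g := g)
      (by fun_prop)
      (fun x _ => ((Real.hasDerivAt_exp x).const_mul (X : ℝ)).hasDerivWithinAt)
      (by fun_prop)
      (by
        refine hgcon.mono ?_
        rintro _ ⟨v, hv, rfl⟩
        rw [Set.uIcc_of_le (by linarith)] at hv
        constructor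
        · show (X : ℝ) ≤ X * Real.exp v
          nlinarith [Real.add_one_le_exp v, hv.1]
        · show X * Real.exp v ≤ 3 * X
          have : Real.exp v ≤ 3 := by
            calc Real.exp v ≤ Real.exp (Real.log 3) := Real.exp_le_exp.2 hv.2
              _ = 3 := Real.exp_log (by norm_num)
          nlinarith)
    rw [Real.exp_zero, mul_one, Real.exp_log (by norm_num : (0 : ℝ) < 3), mul_comm (X : ℝ) 3] at h1
    rw [← h1]
    have h2 : ∀ v : ℝ, (X * Real.exp v) • ((g ∘ fun v : ℝ => X * Real.exp v) v) =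
        (X : ℂ) ^ (-s) * (((w v : ℝ) : ℂ) * Complex.exp (-s * v)) := by
      intro v
      have e1 : Real.log ((X * Real.exp v) / X) = v := by
        rw [mul_div_assoc, mul_comm, div_mul_cancel₀ _ hX0.ne', Real.log_exp]
      have e2 : (X : ℂ) ^ (-s) = (X : ℂ) * (X : ℂ) ^ (-1 - s) := by
        rw [show -s = 1 + (-1 - s) by ring, Complex.cpow_add _ _ hXC, Complex.cpow_one]
      have e3 : Complex.exp (-s * v) = ((Real.exp v : ℝ) : ℂ) * Complex.exp (-(1 + s) * v) := by
        rw [Complex.ofReal_exp, ← Complex.exp_add]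
        congr 1
        ring
      simp only [Function.comp, hg, hh]
      rw [e1, e2, e3, Complex.real_smul]
      push_cast
      ring
    rw [intervalIntegral.integral_congr (g := fun v : ℝ => (X : ℂ) ^ (-s) *
      (((w v : ℝ) : ℂ) * Complex.exp (-s * v))) (fun v _ => h2 v),
      intervalIntegral.integral_const_mul]
    congr 1
    have hc : Continuous fun v : ℝ => ((w v : ℝ) : ℂ) * Complex.exp (-s * v) :=
      (Complex.continuous_ofReal.comp hF.d0.continuous).mul (by fun_prop)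
    rw [← intervalIntegral.integral_add_adjacent_intervals (b := (1 : ℝ))
      (hc.intervalIntegrable _ _) (hc.intervalIntegrable _ _)]
    have h3 : ∫ v in (1 : ℝ)..(Real.log 3), ((w v : ℝ) : ℂ) * Complex.exp (-s * v) = 0 := by
      rw [intervalIntegral.integral_congr (g := fun _ => (0 : ℂ))]
      · simp
      · intro v hv
        rw [Set.uIcc_of_le hl3.le] at hv
        show ((w v : ℝ) : ℂ) * Complex.exp (-s * v) = 0
        rw [hF.z1 v hv.1]
        simp
    rw [h3, add_zero]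
    rfl
  have hadj : ∑ k ∈ Finset.Ico X (3 * X), ∫ u in ((k : ℕ) : ℝ)..((k + 1 : ℕ) : ℝ), g u =
      ∫ u in (X : ℝ)..(3 * X), g u := by
    have := intervalIntegral.sum_integral_adjacent_intervals_Ico (f := g) (μ := volume)
      (a := fun k : ℕ => (k : ℝ)) (m := X) (n := 3 * X) (by omega) (by
        intro k hk
        have hk1 : (X : ℝ) ≤ k := by exact_mod_cast hk.1
        have hk2 : (k : ℝ) + 1 ≤ 3 * X := by exact_mod_cast hk.2
        refine (hgcon.mono ?_).intervalIntegrable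
        intro u hu
        push_cast at hu
        rw [Set.uIcc_of_le (by linarith)] at hu
        exact ⟨by linarith [hu.1], by linarith [hu.2]⟩)
    rw [this]
    push_cast
    rfl
  rw [hsum, ← hint, ← hadj, ← Finset.sum_sub_distrib]
  have hterm : ∀ k ∈ Finset.Ico X (3 * X),
      ‖g ((k + 1 : ℕ) : ℝ) - ∫ u in ((k : ℕ) : ℝ)..((k + 1 : ℕ) : ℝ), g u‖ ≤
        2 * B * (1 + ‖s‖) / X ^ 2 := by
    intro k hk
    rw [Finset.mem_Ico] at hk
    have hk1 : (X : ℝ) ≤ k := by exact_mod_cast hk.1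
    have hk2 : (k : ℝ) + 1 ≤ 3 * X := by exact_mod_cast hk.2
    have e1 : g ((k + 1 : ℕ) : ℝ) = ∫ u in ((k : ℕ) : ℝ)..((k + 1 : ℕ) : ℝ),
        g ((k + 1 : ℕ) : ℝ) := by
      rw [intervalIntegral.integral_const]
      push_cast
      simp
    have hii : IntervalIntegrable g volume ((k : ℕ) : ℝ) ((k + 1 : ℕ) : ℝ) := by
      refine (hgcon.mono ?_).intervalIntegrable
      intro u hu
      push_cast at hu
      rw [Set.uIcc_of_le (by linarith)] at hu
      exact ⟨by linarith [hu.1], by linarith [hu.2]⟩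
    rw [e1, ← intervalIntegral.integral_sub (by simp) hii]
    have h5 := intervalIntegral.norm_integral_le_of_norm_le_const (a := ((k : ℕ) : ℝ))
      (b := ((k + 1 : ℕ) : ℝ)) (f := fun u : ℝ => g ((k + 1 : ℕ) : ℝ) - g u)
      (C := 2 * B * (1 + ‖s‖) / X ^ 2) (by
        intro u hu
        push_cast at hu
        rw [Set.uIoc_of_le (by linarith)] at hu
        have h6 := (convex_Icc (X : ℝ) (3 * X)).norm_image_sub_le_of_norm_hasDerivWithin_le
          (f := g) (C := 2 * B * (1 + ‖s‖) / X ^ 2)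
          (fun y hy => (hgd y (lt_of_lt_of_le hX0 hy.1)).hasDerivWithinAt) hdb
          (x := u) (y := ((k + 1 : ℕ) : ℝ)) ⟨by linarith [hu.1], by linarith [hu.2]⟩
          ⟨by push_cast; linarith, by push_cast; linarith⟩
        refine h6.trans ?_
        have h7 : ‖((k + 1 : ℕ) : ℝ) - u‖ ≤ 1 := by
          push_cast
          rw [Real.norm_eq_abs, abs_le]
          constructor <;> linarith [hu.1, hu.2]
        exact mul_le_of_le_one_right (by positivity) h7)
    push_cast at h5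
    simpa using h5
  refine (norm_sum_le _ _).trans ((Finset.sum_le_sum hterm).trans ?_)
  rw [Finset.sum_const, Nat.card_Ico, nsmul_eq_mul]
  have : ((3 * X - X : ℕ) : ℝ) = 2 * X := by
    rw [show 3 * X - X = 2 * X by omega]
    push_cast
    ring
  rw [this]
  refine le_of_eq ?_
  field_simp
  ring

theorem hWhb : StWhb := by
  intro w hw
  obtain ⟨B, hF⟩ := facts hw
  have hB := hF.B1
  refine ⟨6 * B, by linarith, ?_, ?_, ?_⟩
  · intro z hz
    have h0 : ‖wh w z‖ ≤ 3 * B := bound (fun t _ => hF.b0 t) (by linarith) hz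
    have h2 : ‖z ^ 2 * wh w z‖ ≤ 3 * B := by
      rw [← (part2_WHB hF z).2]
      exact bound hF.b2 (by linarith) hz
    rw [norm_mul, norm_pow] at h2
    rw [le_div_iff₀ (by positivity)]
    nlinarith
  · intro z
    obtain ⟨h1, h2⟩ := part2_WHB hF z
    have c0 : Continuous fun v : ℝ => ((w v : ℝ) : ℂ) * Complex.exp (z * v) :=
      (Complex.continuous_ofReal.comp hF.d0.continuous).mul (by fun_prop)
    have c1 : Continuous fun v : ℝ => ((deriv w v : ℝ) : ℂ) * Complex.exp (z * v) :=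
      (Complex.continuous_ofReal.comp hF.d1.continuous).mul (by fun_prop)
    have c2 : Continuous fun v : ℝ => ((deriv (deriv w) v : ℝ) : ℂ) * Complex.exp (z * v) :=
      (Complex.continuous_ofReal.comp hF.c2).mul (by fun_prop)
    have e : ∫ v in (0 : ℝ)..1, ((deriv (deriv w) v - 2 * deriv w v + w v : ℝ) : ℂ) *
        Complex.exp (z * v) = ∫ v in (0 : ℝ)..1,
        (((((deriv (deriv w) v : ℝ) : ℂ) * Complex.exp (z * v)) -
          2 * (((deriv w v : ℝ) : ℂ) * Complex.exp (z * v))) +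
          ((w v : ℝ) : ℂ) * Complex.exp (z * v)) := by
      refine intervalIntegral.integral_congr fun v _ => ?_
      show ((deriv (deriv w) v - 2 * deriv w v + w v : ℝ) : ℂ) * Complex.exp (z * v) = _
      push_cast
      ring
    have c4 : Continuous fun v : ℝ => (2 : ℂ) * (((deriv w v : ℝ) : ℂ) * Complex.exp (z * v)) :=
      continuous_const.mul c1
    have c3 : Continuous fun v : ℝ => ((deriv (deriv w) v : ℝ) : ℂ) * Complex.exp (z * v) -
      2 * (((deriv w v : ℝ) : ℂ) * Complex.exp (z * v)) := c2.sub c4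
    rw [e, intervalIntegral.integral_add
      (c3.intervalIntegrable _ _) (c0.intervalIntegrable _ _),
      intervalIntegral.integral_sub (c2.intervalIntegrable _ _)
      (c4.intervalIntegrable _ _), intervalIntegral.integral_const_mul,
      h1, h2]
    have : ∫ v in (0 : ℝ)..1, ((w v : ℝ) : ℂ) * Complex.exp (z * v) = wh w z := rfl
    rw [this]
    ring
  · intro X s hX hs0 _
    refine (sum_WHB hF X s hX hs0).trans ?_
    gcongr
    norm_num

end Pool.Agent.Helper22.MV
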