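import Pool.Agent.Helper23.MV.StE
import Pool.Agent.Helper22.GK.M_TFO

/-!
# Project MV, module ZF2: zeros very close to `1`, one real character
-/

set_option autoImplicit false

namespace Pool.Agent.Helper22.MV

open Pool.Agent.Helper23.MV
open Pool.Agent.Helper22.GK
open scoped ArithmeticFunction.vonMangoldt

private theorem sq_eq_one_iff_of_side_ZF2 {z : ℂ} (h : z ^ 2 = 1) : z = 1 ∨ z = -1 := by
  have : (z - 1) * (z + 1) = 0 := by linear_combination h
  rcases mul_eq_zero.1 this with h | h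
  · exact Or.inl (by linear_combination h)
  · exact Or.inr (by linear_combination h)

private theorem pos_ZF2 {q : ℕ} [NeZero q] (χ : DirichletCharacter ℂ q) (h2 : χ ^ 2 = 1) {σ : ℝ}
    (hσ : 1 < σ) :
    0 ≤ (-(deriv (DirichletCharacter.LFunction (1 : DirichletCharacter ℂ q)) (σ : ℂ) /
        DirichletCharacter.LFunction (1 : DirichletCharacter ℂ q) (σ : ℂ))).re +
      (-(deriv (DirichletCharacter.LFunction χ) (σ : ℂ) /
        DirichletCharacter.LFunction χ (σ : ℂ))).re := by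
  have hs : 1 < (σ : ℂ).re := by simpa using hσ
  obtain ⟨a1, b1⟩ := tfo_re (1 : DirichletCharacter ℂ q) hs
  obtain ⟨a2, b2⟩ := tfo_re χ hs
  rw [a1, a2, ← b1.tsum_add b2]
  refine tsum_nonneg fun n => ?_
  rcases eq_or_ne n 0 with rfl | hn
  · simp [LSeries.term_zero]
  · rw [tfo_term0 _ σ hn, tfo_term0 _ σ hn, Complex.re_ofReal_mul, Complex.re_ofReal_mul, ← mul_add]
    refine mul_nonneg (mul_nonneg ArithmeticFunction.vonMangoldt_nonneg
      (Real.rpow_nonneg (Nat.cast_nonneg n) _)) ?_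
    by_cases hu : IsUnit ((n : ℕ) : ZMod q)
    · have e1 : (1 : DirichletCharacter ℂ q) (n : ZMod q) = 1 := MulChar.one_apply hu
      have e2 : χ (n : ZMod q) ^ 2 = 1 := by
        have h3 : (χ ^ 2) (n : ZMod q) = (1 : DirichletCharacter ℂ q) (n : ZMod q) := by rw [h2]
        rw [e1, MulChar.pow_apply' χ two_ne_zero] at h3
        exact h3
      rw [e1]
      rcases sq_eq_one_iff_of_side_ZF2 e2 with h | h
      · rw [h]; norm_num
      · rw [h]; norm_num
    · rw [MulChar.map_nonunit _ hu, MulChar.map_nonunit _ hu]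
      simp

theorem hZf2 : StLdr → StLdp → StZf2 := by
  intro hldr hldp lam0 hlam
  obtain ⟨A1, hA1, hr⟩ := hldr
  obtain ⟨A2, hA2, hp⟩ := hldp
  set A : ℝ := max A1 A2 with hA
  have hA0 : 1 ≤ A := le_trans hA1 (le_max_left _ _)
  have hlp : 0 < lam0 := by linarith
  have hAl : 0 < A * lam0 := by positivity
  set κ : ℝ := 1 / (100000 * (A * lam0)) with hκ
  have hκ0 : 0 < κ := by positivity
  have hκ1 : κ ≤ 1 := by
    rw [hκ, div_le_one (by positivity)]
    nlinarith
  obtain ⟨c1, X1, hc1, hc1', hX1, h1⟩ := hr κ hκ0 hκ1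
  obtain ⟨c2, X2, hc2, hc2', hX2, h2⟩ := hp κ hκ0 hκ1
  set c : ℝ := min c1 c2 with hc
  have hc0 : 0 < c := lt_min hc1 hc2
  refine ⟨c, max (max X1 X2) (Real.exp (661 * lam0 / c)), hc0,
    le_trans hX1 (le_trans (le_max_left _ _) (le_max_left _ _)), ?_⟩
  intro X e S hX hq hRe hS
  have hXX1 : X1 ≤ X := le_trans (le_trans (le_max_left _ _) (le_max_left _ _)) hX
  have hXX2 : X2 ≤ X := le_trans (le_trans (le_max_right _ _) (le_max_left _ _)) hX
  have hXe : Real.exp (661 * lam0 / c) ≤ X := le_trans (le_max_right _ _) hX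
  have hX0 : 2 ≤ X := le_trans hX1 hXX1
  have hXpos : 0 < X := by linarith
  have hL : 661 * lam0 / c ≤ Real.log X := (Real.le_log_iff_exp_le hXpos).2 hXe
  have hL0 : 0 < Real.log X := lt_of_lt_of_le (by positivity) hL
  set L : ℝ := Real.log X with hLd
  set u : ℝ := lam0 / L with hu
  have hu0 : 0 < u := by positivity
  have huc : 661 * u ≤ c := by
    rw [div_le_iff₀ hc0] at hL
    rw [hu, ← mul_div_assoc, div_le_iff₀ hL0]
    linarith
  have hLu : L * u = lam0 := by rw [hu]; field_simp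
  set σ : ℝ := 1 + 600 * u with hσ
  have hσ1 : 1 < σ := by linarith
  have hcc1 : c ≤ c1 := min_le_left _ _
  have hcc2 : c ≤ c2 := min_le_right _ _
  have hσL : 1 + 1 / L ≤ σ := by
    have : 1 / L ≤ 600 * u := by
      rw [hu, ← mul_div_assoc]
      exact div_le_div_of_nonneg_right (by linarith) hL0.le
    linarith
  have hq1 : (e.r : ℝ) ≤ X ^ c1 := le_trans hq (Real.rpow_le_rpow_of_exponent_le (by linarith) hcc1)
  have hq2 : (e.r : ℝ) ≤ X ^ c2 := le_trans hq (Real.rpow_le_rpow_of_exponent_le (by linarith) hcc2)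
  have hz : ∀ ρ ∈ S, ρ.re < 1 := by
    intro ρ hρ
    by_contra hcon
    push Not at hcon
    exact DirichletCharacter.LFunction_ne_zero_of_one_le_re e.χ (Or.inl hRe.2) hcon (hS ρ hρ).1
  have hcast : ((σ : ℂ) + ((0 : ℝ) : ℂ) * Complex.I) = (σ : ℂ) := by simp
  have k1 := h1 X e.r e.χ σ 0 S hXX1 hq1 hσL (by linarith) (by simpa using hXpos.le)
    (fun h => absurd h hRe.2) (by
      intro ρ hρ
      refine ⟨(hS ρ hρ).1, ?_⟩
      rw [hcast]
      refine le_trans (Complex.norm_le_abs_re_add_abs_im _) ?_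
      have e1 : (ρ - (σ : ℂ)).re = ρ.re - σ := by simp
      have e2 : (ρ - (σ : ℂ)).im = ρ.im := by simp
      rw [e1, e2]
      have a1 := hz ρ hρ
      have a2 := (hS ρ hρ).2.1
      have a3 := (hS ρ hρ).2.2
      have a4 : 60 * lam0 / Real.log X = 60 * u := by rw [hu, mul_div_assoc]
      rw [a4] at a3
      have a5 : |ρ.re - σ| ≤ 601 * u := by
        rw [abs_le]
        constructor <;> linarith
      linarith)
  have k2 := h2 X e.r σ 0 hXX2 hq2 hσL (by linarith) (by simpa using hXpos.le)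
  rw [hcast] at k1 k2
  have k3 := pos_ZF2 e.χ hRe.1 hσ1
  have k4 : (1 / ((σ : ℂ) - 1)).re = 1 / (600 * u) := by
    have : (1 / ((σ : ℂ) - 1)) = ((1 / (600 * u) : ℝ) : ℂ) := by
      rw [hσ]; push_cast; ring
    rw [this, Complex.ofReal_re]
  rw [k4] at k2
  have k5 : ∑ ρ ∈ S, (mz e ρ : ℝ) * (1 / (607.1 * u)) ≤
      ∑ ρ ∈ S, (analyticOrderNatAt (DirichletCharacter.LFunction e.χ) ρ : ℝ) *
        (1 / ((σ : ℂ) - ρ)).re := by
    refine Finset.sum_le_sum fun ρ hρ => ?_
    have e0 : (mz e ρ : ℝ) =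
        (analyticOrderNatAt (DirichletCharacter.LFunction e.χ) ρ : ℝ) := rfl
    rw [e0]
    refine mul_le_mul_of_nonneg_left ?_ (Nat.cast_nonneg _)
    have a1 := hz ρ hρ
    have a2 := (hS ρ hρ).2.1
    have a3 := (hS ρ hρ).2.2
    have a4 : 60 * lam0 / Real.log X = 60 * u := by rw [hu, mul_div_assoc]
    rw [a4] at a3
    have e1 : ((σ : ℂ) - ρ).re = σ - ρ.re := by simp
    have e2 : ((σ : ℂ) - ρ).im = - ρ.im := by simp
    rw [one_div ((σ : ℂ) - ρ), Complex.inv_re, Complex.normSq_apply, e1, e2]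
    have b1 : 600 * u ≤ σ - ρ.re := by linarith
    have b2 : σ - ρ.re ≤ 601 * u := by linarith
    have b3 : ρ.im ^ 2 ≤ (60 * u) ^ 2 := sq_le_sq' (by linarith [abs_le.1 a3]) (abs_le.1 a3).2
    have b4 : 0 < σ - ρ.re := by linarith
    rw [div_le_div_iff₀ (by positivity) (by nlinarith [sq_nonneg ρ.im, mul_pos b4 b4])]
    nlinarith [mul_le_mul_of_nonneg_left b2 b4.le, mul_le_mul_of_nonneg_left b1 hu0.le]
  rw [← Finset.sum_mul] at k5
  set M : ℝ := ∑ ρ ∈ S, (mz e ρ : ℝ) with hM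
  have k6 : A1 * κ * L + A2 * κ * L ≤ 1 / (50000 * u) := by
    have g1 : A1 ≤ A := le_max_left _ _
    have g2 : A2 ≤ A := le_max_right _ _
    have g3 : A1 * κ * L ≤ A * κ * L := by gcongr
    have g4 : A2 * κ * L ≤ A * κ * L := by gcongr
    have g5 : A * κ * L = 1 / (100000 * u) := by
      rw [hκ, hu]
      field_simp
    have g6 : 1 / (50000 * u) = 2 * (1 / (100000 * u)) := by
      field_simp
      norm_num
    rw [g6, ← g5]
    linarith
  have k7 : M * (1 / (607.1 * u)) ≤ 1 / (600 * u) + 1 / (50000 * u) := by linarith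
  have k8 : 1 / (600 * u) + 1 / (50000 * u) < 2 * (1 / (607.1 * u)) := by
    have : 1 / (600 * u) + 1 / (50000 * u) = (1 / 600 + 1 / 50000) * (1 / u) := by
      field_simp
    rw [this]
    have : 2 * (1 / (607.1 * u)) = (2 / 607.1) * (1 / u) := by
      field_simp
    rw [this]
    exact mul_lt_mul_of_pos_right (by norm_num) (by positivity)
  have k9 : 0 < 1 / (607.1 * u) := by positivity
  exact lt_of_mul_lt_mul_right (lt_of_le_of_lt k7 k8) k9.le

end Pool.Agent.Helper22.MV
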